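import Pool.Agent.H72.EQQ.Targets
import Pool.Agent.H80.EQ.FEL

/-!
Row FEQ of the board eqq_modules: the tuples with excess `E` on the main region, with a power
saving.
-/

set_option autoImplicit false

open Pool.Agent.H38.AE.Statement Pool.Agent.H38.AT MeasureTheory Filter
open Pool.Agent.H71.EQ Pool.Agent.H72.EQQ Pool.Agent.H80.EQ

namespace Pool.Agent.H80.EQQ

/-- **the tuples with excess `E` on the main region, with a power saving** -/
theorem pf_FEQ (hFXQ : T_FXQ) (hEXC : T_EXC) : T_FEQ := by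
  intro k hk
  obtain ⟨C, θ, a, hC, hθ, hX⟩ := hFXQ k hk
  refine ⟨C, nu k * θ, a + 1, hC, mul_pos (nu_pos k) hθ, ?_⟩
  intro E κ lam X B L f hE hκ0 hκ1 hlam hX1 hfB hfL
  refine ⟨fin_SF k E κ lam X, ?_⟩
  have hE1 : (1 : ℝ) ≤ E := by exact_mod_cast hE
  have hE0 : (0 : ℝ) < E := by linarith
  have hX0 : 0 < X := by linarith
  have hXE : 0 < X * E := mul_pos hX0 hE0
  have hXE1 : 1 ≤ X * E := by nlinarith
  have hR1 : 1 ≤ (X * E) ^ nu k := Real.one_le_rpow hXE1 (nu_pos k).le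
  have h1 := hX E κ lam ((X * E) ^ nu k) B L f hE hκ0 hκ1 hlam hR1 hfB hfL
  rw [sum_eq hE hEXC κ lam X hlam hX0 f] at h1
  have hnk : nu k * (k : ℝ) = 1 - nu k := by
    have := nu_mul k
    linarith
  have h5 : ((X * E) ^ nu k) ^ k = X ^ (1 - nu k) * (E : ℝ) ^ (1 - nu k) := by
    rw [← Real.rpow_natCast, ← Real.rpow_mul hXE.le, hnk, Real.mul_rpow hX0.le hE0.le]
  have h6 : ((X * E) ^ nu k) ^ k * (wt (k + 1) E * ∫ z in Reg k E κ lam, f (arg E z)) =
      X ^ (1 - nu k) * (wt (k + 1) E * (E : ℝ) ^ (1 - nu k) *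
        ∫ z in Reg k E κ lam, f (arg E z)) := by
    rw [h5]
    ring
  rw [h6] at h1
  refine h1.trans ?_
  have h7 : ((X * E) ^ nu k) ^ ((k : ℝ) - θ) ≤ E * X ^ (1 - nu k - nu k * θ) := by
    have h8 : nu k * ((k : ℝ) - θ) = 1 - nu k - nu k * θ := by
      rw [← hnk]
      ring
    rw [← Real.rpow_mul hXE.le, h8, Real.mul_rpow hX0.le hE0.le, mul_comm]
    refine mul_le_mul_of_nonneg_right ?_ (Real.rpow_nonneg hX0.le _)
    calc (E : ℝ) ^ (1 - nu k - nu k * θ) ≤ (E : ℝ) ^ (1 : ℝ) := by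
          refine Real.rpow_le_rpow_of_exponent_le hE1 ?_
          have h9 := nu_pos k
          have h10 := mul_pos (nu_pos k) hθ
          linarith
      _ = E := Real.rpow_one _
  have hB0 : 0 ≤ B := (abs_nonneg _).trans (hfB 0)
  have hL0 : 0 ≤ L := by
    have h2 := hfL (fun _ => 1) 0
    rw [sub_zero, pi_norm_const, norm_one, mul_one] at h2
    exact (abs_nonneg _).trans h2
  have hκ2 : 1 ≤ κ⁻¹ := (one_le_inv₀ hκ0).mpr hκ1.le
  have hq : (E : ℝ) ≤ E * κ⁻¹ * lam := by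
    have h11 : (1 : ℝ) ≤ κ⁻¹ * lam := by nlinarith
    calc (E : ℝ) = E * 1 := (mul_one _).symm
      _ ≤ E * (κ⁻¹ * lam) := mul_le_mul_of_nonneg_left h11 hE0.le
      _ = E * κ⁻¹ * lam := by ring
  have hq0 : 0 ≤ E * κ⁻¹ * lam := hE0.le.trans hq
  have hcoef : 0 ≤ C * (B + L) * (E * κ⁻¹ * lam) ^ a := by positivity
  calc C * (B + L) * (E * κ⁻¹ * lam) ^ a * ((X * E) ^ nu k) ^ ((k : ℝ) - θ)
      ≤ C * (B + L) * (E * κ⁻¹ * lam) ^ a * (E * X ^ (1 - nu k - nu k * θ)) :=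
        mul_le_mul_of_nonneg_left h7 hcoef
    _ ≤ C * (B + L) * (E * κ⁻¹ * lam) ^ a *
        ((E * κ⁻¹ * lam) * X ^ (1 - nu k - nu k * θ)) := by
        refine mul_le_mul_of_nonneg_left ?_ hcoef
        exact mul_le_mul_of_nonneg_right hq (Real.rpow_nonneg hX0.le _)
    _ = C * (B + L) * (E * κ⁻¹ * lam) ^ (a + 1) * X ^ (1 - nu k - nu k * θ) := by
        rw [pow_succ]
        ring

end Pool.Agent.H80.EQQ
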